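import Pool.Agent.Lib.MP_9fc4df_co.FFour

open Pool.Agent.Lib.MP_9fc4df_co

namespace Pool.Agent.Results.MP_9fc4df_co.FFour

/-- **A four-dimensional `4`-reptile simplex.** The simplex in `ℝ⁴` with vertices `(0,0,0,0)`,
`(6,6,0,0)`, `(12,0,0,0)`, `(9,3,3,3)`, `(8,4,4,0)` is a `4`-reptile (and a `4 ^ n`-reptile for
every `n`). Hence it is false that in every dimension `d ≥ 4` the existence of a `d`-dimensional
`k`-reptile simplex forces `k` to be a perfect `d`-th power. -/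
theorem result :
    (∃ s : Affine.Simplex ℝ (EuclideanSpace ℝ (Fin 4)) 4,
      s.points = ![!₂[0, 0, 0, 0], !₂[6, 6, 0, 0], !₂[12, 0, 0, 0], !₂[9, 3, 3, 3],
        !₂[8, 4, 4, 0]] ∧
      IsReptile 4 s ∧ ∀ n : ℕ, IsReptile (4 ^ n) s) ∧
    ¬ (∀ d : ℕ, 4 ≤ d → ∀ (k : ℕ) (s : Affine.Simplex ℝ (EuclideanSpace ℝ (Fin d)) d),
      IsReptile k s → ∃ m : ℕ, 0 < m ∧ k = m ^ d) := by
  refine ⟨⟨FFour.alcove, rfl, FFour.isReptile_four, FFour.isReptile_four_pow⟩, fun h => ?_⟩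
  obtain ⟨m, hm, h4⟩ := h 4 le_rfl 4 FFour.alcove FFour.isReptile_four
  rcases Nat.lt_or_ge m 2 with h2 | h2
  · have : m = 1 := by omega
    subst this
    norm_num at h4
  · have : 2 ^ 4 ≤ m ^ 4 := Nat.pow_le_pow_left h2 4
    omega

end Pool.Agent.Results.MP_9fc4df_co.FFour
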