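import Pool.Agent.Lib.MP_9fc4df_co.Main

open Pool.Agent.Lib.MP_9fc4df_co

namespace Pool.Agent.Results.MP_9fc4df_co.PrimeDimension

/-- **Reptile simplices in prime and in odd dimensions.** If `d ≥ 5` is prime and there is a
`d`-dimensional `k`-reptile simplex, then `k` is a perfect `d`-th power. If `d ≥ 5` is odd, then
`k` is a perfect `p`-th power for some prime divisor `p` of `d`. -/
theorem result :
    (∀ d : ℕ, d.Prime → 5 ≤ d → ∀ (k : ℕ) (s : Affine.Simplex ℝ (EuclideanSpace ℝ (Fin d)) d),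
      IsReptile k s → ∃ m : ℕ, 0 < m ∧ k = m ^ d) ∧
    (∀ d : ℕ, Odd d → 5 ≤ d → ∀ (k : ℕ) (s : Affine.Simplex ℝ (EuclideanSpace ℝ (Fin d)) d),
      IsReptile k s → ∃ p : ℕ, p.Prime ∧ p ∣ d ∧ ∃ m : ℕ, 0 < m ∧ k = m ^ p) := by
  refine ⟨fun d hd h5 k s h => ?_, fun d hd h5 k s h => main hd h5 h⟩
  obtain ⟨p, hp, hpd, m, hm, hk⟩ := main (hd.odd_of_ne_two (by omega)) h5 h
  have hpd' : p = d := (Nat.prime_dvd_prime_iff_eq hp hd).1 hpd
  exact ⟨m, hm, by rw [hk, hpd']⟩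

end Pool.Agent.Results.MP_9fc4df_co.PrimeDimension
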